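import Pool.Agent.Results.MP_869403_co.LogPowerLower

/-!
# A power of `log n` as a lower bound for `Γ_1(H(n,3))`

For all `n ≥ 3` the upper directed 1-domination number of the complete 3-uniform hypergraph on `n`
vertices is at least `c (log n) ^ (1 / 2)` for an absolute constant `c > 0`.

The bound is read off from the starting file `Pool.Agent.Results.MP_869403_co.LogPowerLower`
(case `p = 1`, `r = 3`, `g = 3`).
-/

set_option autoImplicit false

namespace Pool.Agent.Results.MP_39aace_co.PolylogLower

/-- An orientation of the complete 3-uniform hypergraph `H(n,3)` on the vertex set `Fin n`: every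
3-subset `E` gets one of its `3!` linear orders, given as a bijection from the places `0, 1, 2`
onto `E`. -/
def Orientation (n : ℕ) : Type :=
  ∀ E : {E : Finset (Fin n) // E.card = 3}, Fin 3 ≃ {v : Fin n // v ∈ E.1}

/-- `S` is a directed 1-dominating set of `D`: every vertex `u` outside `S` lies in an edge whose
first vertex belongs to `S`. -/
def IsDominating {n : ℕ} (D : Orientation n) (S : Finset (Fin n)) : Prop :=
  ∀ u, u ∉ S → ∃ E : {E : Finset (Fin n) // E.card = 3}, u ∈ E.1 ∧ (D E 0).1 ∈ S

/-- The minimum size of a directed 1-dominating set of `D`. -/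
noncomputable def gamma {n : ℕ} (D : Orientation n) : ℕ :=
  sInf {k | ∃ S : Finset (Fin n), IsDominating D S ∧ S.card = k}

/-- The upper directed 1-domination number of `H(n,3)`: the maximum of `gamma D` over all
orientations `D` (there are finitely many). -/
noncomputable def Gamma (n : ℕ) : ℕ := sSup {k | ∃ D : Orientation n, gamma D = k}

lemma isDominating_iff {n : ℕ} (D : Orientation n) (S : Finset (Fin n)) :
    MP_869403_co.LogOrder.IsDominating (n := n) (r := 3) 1 D S ↔ IsDominating D S := by
  unfold IsDominating MP_869403_co.LogOrder.IsDominating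
  refine forall_congr' fun u => forall_congr' fun _ => exists_congr fun E =>
    and_congr_right fun _ => ?_
  constructor
  · intro h
    exact h 0 (by simp)
  · intro h i hi
    have : i = 0 := Fin.ext (by simpa using hi)
    rw [this]
    exact h

lemma gamma_eq {n : ℕ} (D : Orientation n) :
    MP_869403_co.LogOrder.gamma (n := n) (r := 3) 1 D = gamma D := by
  unfold gamma MP_869403_co.LogOrder.gamma
  simp only [isDominating_iff]

lemma Gamma_eq (n : ℕ) : MP_869403_co.LogOrder.Gamma 1 n 3 = Gamma n := by
  unfold Gamma MP_869403_co.LogOrder.Gamma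
  congr 1
  ext k
  constructor
  · rintro ⟨D, hD⟩
    exact ⟨D, (gamma_eq D).symm.trans hD⟩
  · rintro ⟨D, hD⟩
    exact ⟨D, (gamma_eq D).trans hD⟩

/-- **Answer to Q1: yes.** There are constants `c > 0` and `α > 0` with
`Γ_1(H(n,3)) ≥ c (log n) ^ α` for all `n ≥ 3`; here `α = 1 / 2` works. -/
theorem result : ∃ c α : ℝ, 0 < c ∧ 0 < α ∧ α = 1 / 2 ∧
    ∀ n : ℕ, 3 ≤ n → c * Real.log n ^ α ≤ (Gamma n : ℝ) := by
  refine ⟨(1 / (126 * Real.log 2)) ^ ((1 : ℝ) / 2), 1 / 2, ?_, by norm_num, rfl, ?_⟩
  · have := Real.log_pos (show (1 : ℝ) < 2 by norm_num)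
    positivity
  · intro n hn
    have h := MP_869403_co.LogPowerLower.result 1 3 3 le_rfl (by norm_num) (by norm_num)
      (Or.inl le_rfl) n hn
    rw [Gamma_eq] at h
    refine le_trans (le_of_eq ?_) h
    have h2 := Real.log_pos (show (1 : ℝ) < 2 by norm_num)
    have h3 : 0 ≤ Real.log n := Real.log_nonneg (by exact_mod_cast (by omega : 1 ≤ n))
    rw [← Real.mul_rpow (by positivity) h3, Real.logb]
    have h4 : (7 * ((3 : ℕ) : ℝ) * ((Nat.factorial 3 : ℕ) : ℝ)) = 126 := by
      simp [Nat.factorial]
      norm_num
    rw [h4]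
    congr 1
    · field_simp
    · norm_num

end Pool.Agent.Results.MP_39aace_co.PolylogLower
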